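import Mathlib

namespace Pool.Agent.Results.MP_ffd2af_nt.Exp

open Finset Nat

/-- `a n` is the sum of `(i!)^((n-i+1)!)` over `1 ≤ i ≤ n`. -/
def a (n : ℕ) : ℕ := ∑ i ∈ Icc 1 n, (i !) ^ ((n - i + 1)!)

lemma between (x c q A : ℕ) (hq : q ≠ 0) (h1 : x ^ q < A) (h2 : A < (x + 1) ^ q) : A ≠ c ^ q := by
  rintro rfl
  rw [Nat.pow_lt_pow_iff_left hq] at h1 h2
  omega

lemma fact_le (j : ℕ) : (j + 3)! ≤ 8 ^ ((j + 1)!) := by
  induction j with
  | zero => decide
  | succ j ih =>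
    have h1 : j + 4 ≤ (j + 3)! := by
      have : (j + 3)! = (j + 3) * ((j + 2) * (j + 1)!) := by simp [Nat.factorial_succ]
      have h0 := Nat.factorial_pos (j + 1)
      rw [this]
      nlinarith [Nat.mul_le_mul_left (j + 2) h0]
    calc (j + 1 + 3)! = (j + 4) * (j + 3)! := by simp [Nat.factorial_succ]
      _ ≤ 8 ^ ((j + 1)!) * 8 ^ ((j + 1)!) := Nat.mul_le_mul (h1.trans ih) ih
      _ = 8 ^ (2 * (j + 1)!) := by rw [← pow_add, two_mul]
      _ ≤ 8 ^ ((j + 1 + 1)!) := by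
        apply Nat.pow_le_pow_right (by norm_num)
        rw [Nat.factorial_succ (j + 1)]
        exact Nat.mul_le_mul_right _ (by omega)

lemma ff (s t : ℕ) : (s + 1)! * (t + 1)! ≤ (s + t + 1)! := by
  induction s with
  | zero => simp
  | succ s ih =>
    calc (s + 1 + 1)! * (t + 1)! = (s + 2) * ((s + 1)! * (t + 1)!) := by
          rw [Nat.factorial_succ (s + 1)]; ring
      _ ≤ (s + t + 2) * (s + t + 1)! := Nat.mul_le_mul (by omega) ih
      _ = (s + 1 + t + 1)! := by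
          rw [show s + 1 + t + 1 = (s + t + 1) + 1 by ring, Nat.factorial_succ (s + t + 1)]

lemma term_le (n i : ℕ) (hi : i ∈ (Icc 1 n).erase 2) :
    (i !) ^ ((n - i + 1)!) ≤ 8 ^ ((n - 2)!) := by
  simp only [mem_erase, mem_Icc] at hi
  by_cases h1 : i = 1
  · subst h1
    simp only [Nat.factorial_one, one_pow]
    exact Nat.one_le_pow _ _ (by norm_num)
  obtain ⟨j, rfl⟩ : ∃ j, i = j + 3 := ⟨i - 3, by omega⟩
  obtain ⟨t, rfl⟩ : ∃ t, n = j + 3 + t := ⟨n - (j + 3), by omega⟩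
  rw [show j + 3 + t - (j + 3) + 1 = t + 1 by omega, show j + 3 + t - 2 = j + t + 1 by omega]
  calc ((j + 3)!) ^ ((t + 1)!) ≤ (8 ^ ((j + 1)!)) ^ ((t + 1)!) :=
        Nat.pow_le_pow_left (fact_le j) _
    _ = 8 ^ ((j + 1)! * (t + 1)!) := by rw [← pow_mul]
    _ ≤ _ := Nat.pow_le_pow_right (by norm_num) (ff j t)

lemma big (n q c : ℕ) (hn : 8 ≤ n) (hq : 2 ≤ q) (hd : q ∣ (n - 1)!) : a n ≠ c ^ q := by
  obtain ⟨M, hM⟩ := hd
  have h2 : 2 ∈ Icc 1 n := by simp; omega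
  have hs : a n = 2 ^ ((n - 1)!) + ∑ i ∈ (Icc 1 n).erase 2, (i !) ^ ((n - i + 1)!) := by
    rw [a, ← Finset.add_sum_erase _ _ h2, show n - 2 + 1 = n - 1 by omega]
    rfl
  have hx : (2 ^ M) ^ q = 2 ^ ((n - 1)!) := by rw [← pow_mul, hM, mul_comm]
  have hpos : 0 < ∑ i ∈ (Icc 1 n).erase 2, (i !) ^ ((n - i + 1)!) :=
    Finset.sum_pos (fun i _ => pow_pos (Nat.factorial_pos i) _) ⟨1, by simp; omega⟩
  have hle : ∑ i ∈ (Icc 1 n).erase 2, (i !) ^ ((n - i + 1)!) ≤ n * 8 ^ ((n - 2)!) := by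
    refine (Finset.sum_le_card_nsmul _ _ _ (term_le n)).trans ?_
    rw [smul_eq_mul]
    refine Nat.mul_le_mul_right _ ?_
    refine (Finset.card_erase_le).trans ?_
    simp
  refine between (2 ^ M) c q _ (by omega) (by rw [hx, hs]; omega) ?_
  obtain ⟨r, rfl⟩ : ∃ r, q = r + 1 := ⟨q - 1, by omega⟩
  have h3 : (2 ^ M) ^ (r + 1) + (2 ^ M) ^ r ≤ (2 ^ M + 1) ^ (r + 1) := by
    have : (2 ^ M) ^ r ≤ (2 ^ M + 1) ^ r := Nat.pow_le_pow_left (by omega) _
    calc (2 ^ M) ^ (r + 1) + (2 ^ M) ^ r = (2 ^ M) ^ r * (2 ^ M + 1) := by ring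
      _ ≤ (2 ^ M + 1) ^ r * (2 ^ M + 1) := Nat.mul_le_mul_right _ this
      _ = _ := by ring
  have hK : (n - 1)! = (n - 1) * (n - 2)! := by
    rw [show n - 1 = (n - 2) + 1 by omega, Nat.factorial_succ]
  have hK2 : 2 * n ≤ (n - 2)! := by
    obtain ⟨m, rfl⟩ : ∃ m, n = m + 8 := ⟨n - 8, by omega⟩
    rw [show m + 8 - 2 = m + 6 by omega]
    have : (m + 6)! = (m + 6) * ((m + 5) * (m + 4)!) := by simp [Nat.factorial_succ]
    have h0 := Nat.factorial_pos (m + 4)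
    rw [this]
    nlinarith [Nat.mul_le_mul_left (m + 5) h0]
  have hy : n + 3 * (n - 2)! ≤ M * r := by
    have e1 : 7 * (n - 2)! ≤ (n - 1) * (n - 2)! := Nat.mul_le_mul_right _ (by omega)
    have e2 : (r + 1) * M ≤ 2 * (M * r) := by nlinarith
    omega
  have h4 : n * 8 ^ ((n - 2)!) < (2 ^ M) ^ r := by
    calc n * 8 ^ ((n - 2)!) < 2 ^ n * 8 ^ ((n - 2)!) :=
          Nat.mul_lt_mul_of_pos_right Nat.lt_two_pow_self (by positivity)
      _ = 2 ^ (n + 3 * (n - 2)!) := by rw [pow_add, pow_mul]; norm_num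
      _ ≤ 2 ^ (M * r) := Nat.pow_le_pow_right (by norm_num) hy
      _ = _ := by rw [pow_mul]
  rw [hs, ← hx]
  omega

lemma small (n q c : ℕ) (h5 : 5 ≤ n) (h7 : n ≤ 7) (hq : q.Prime) (hd : q ∣ (n - 1)!) :
    a n ≠ c ^ q := by
  have h1 := (hq.dvd_factorial).mp hd
  have h2 := hq.two_le
  have hq' : q = 2 ∨ q = 3 ∨ q = 5 := by
    have : q ≤ 6 := by omega
    interval_cases q <;> first | omega | (exfalso; revert hq; decide)
  have hn : n = 5 ∨ n = 6 ∨ n = 7 := by omega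
  rcases hn with rfl | rfl | rfl <;> rcases hq' with rfl | rfl | rfl
  · exact between 4101 c 2 _ (by norm_num) (by decide +kernel) (by decide +kernel)
  · exact between 256 c 3 _ (by norm_num) (by decide +kernel) (by decide +kernel)
  · omega
  · exact between (2 ^ 60 + 2) c 2 _ (by norm_num) (by decide +kernel) (by decide +kernel)
  · exact between (2 ^ 40) c 3 _ (by norm_num) (by decide +kernel) (by decide +kernel)
  · exact between (2 ^ 24) c 5 _ (by norm_num) (by decide +kernel) (by decide +kernel)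
  · exact between (2 ^ 360) c 2 _ (by norm_num) (by decide +kernel) (by decide +kernel)
  · exact between (2 ^ 240) c 3 _ (by norm_num) (by decide +kernel) (by decide +kernel)
  · exact between (2 ^ 144) c 5 _ (by norm_num) (by decide +kernel) (by decide +kernel)

theorem result (n b e : ℕ) (hn : 4 < n) (h : a n = b ^ e) : ∀ q : ℕ, q.Prime → q ∣ e → n ≤ q := by
  intro q hq hqe
  by_contra hc
  have hd : q ∣ (n - 1)! := (hq.dvd_factorial).mpr (by omega)
  obtain ⟨k, rfl⟩ := hqe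
  rw [mul_comm, pow_mul] at h
  by_cases h8 : 8 ≤ n
  · exact big n q _ h8 hq.two_le hd h
  · exact small n q _ (by omega) (by omega) hq hd h

end Pool.Agent.Results.MP_ffd2af_nt.Exp
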